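import Pool.Agent.Q203.CEA.Inf

set_option autoImplicit false

open Pool.Agent.Q203.CEA

namespace Pool.Agent.Results.MP_aec1d5_lc.FailsACC

/-- **Classes failing ACC whose isomorphism relation is not `Σ⁰₃`-complete.**  There is a
nontrivial variety `𝒱` such that each class `𝒱_n`, `n ≥ 1`, and the class `𝒱_{f.g.}` contain an
algebra whose congruence lattice fails the ascending chain condition, while their isomorphism
relations are computably bi-reducible with equality of c.e. sets, hence not `Σ⁰₃`-complete (indeed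
the `Σ⁰₃` relation `E_0^ce` does not reduce to them). -/
theorem result : ∃ 𝒱 : Variety, 𝒱.Nontriv ∧
    (∀ n : ℕ, 1 ≤ n → (∃ e, ¬ ACC (present 𝒱 (Fin n) (W e))) ∧
      ¬ Sigma3Complete (isoRel 𝒱 n) ∧ CEquiv (isoRel 𝒱 n) eqCE ∧ ¬ CRed E0CE (isoRel 𝒱 n)) ∧
    ((∃ e : ℕ, 1 ≤ e.unpair.1 ∧ ¬ ACC (present 𝒱 (Fin e.unpair.1) (W e.unpair.2))) ∧
      ¬ Sigma3Complete (isoRelFG 𝒱) ∧ CEquiv (isoRelFG 𝒱) eqCE ∧ ¬ CRed E0CE (isoRelFG 𝒱)) ∧
    Equivalence E0CE ∧ Sigma3 E0CE := by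
  refine ⟨𝒞, nontriv, fun n _ => ⟨not_acc n, not_complete (iso_le_eq n),
    ⟨iso_le_eq n, eq_le_iso n⟩, fun h => not_E0CE_le_eqCE (h.trans (iso_le_eq n))⟩,
    ⟨?_, not_complete isoFG_le_eq, ⟨isoFG_le_eq, eq_le_isoFG⟩,
      fun h => not_E0CE_le_eqCE (h.trans isoFG_le_eq)⟩, equivalence_E0CE, sigma3_E0CE⟩
  obtain ⟨e, he⟩ := not_acc 1
  refine ⟨Nat.pair 1 e, ?_, ?_⟩
  · rw [Nat.unpair_pair]
  · rw [Nat.unpair_pair]
    exact he

end Pool.Agent.Results.MP_aec1d5_lc.FailsACC
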